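import Mathlib
import Pool.Agent.Lib.TUK.FinalE2
import Pool.Agent.Lib.TUK.E4
import Pool.Agent.Lib.TUK.E5
import Pool.Agent.Lib.TUK.E8
import Pool.Agent.Lib.TUK.E10

/-!
# Nilsequences times the polynomial phases of a set: the classification (MP_663568_nt)

The average of Q1 for `f(g^h x Γ) e(α₁ h + … + α_t h^t)`, `g, x` arbitrary, `Γ` cocompact in a
nilpotent group `G` of step at most `k < t`, `α` in a set `B ⊆ ℝ^t` which is invariant under the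
changes of the first `k` coordinates; no major arcs are removed. Put `b = max k 1` and let `B'` be
the closure of `B + ℤ^t`. The average for `B` is small if and only if the averages for the
neighbourhoods of `B` are small, and if and only if the basic averages are small for all the
degrees `s` between `b` and `t` for which a section of dimension `s` of `B'` over a rational point
is not a null set: for `s = b` all the phases of degree at most `b`, for `s > b` all the phases of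
degree at most `s` with top coefficient outside of the major arcs.
-/

set_option autoImplicit false

namespace Pool.Agent.Results.MP_663568_nt.ClosedSets

/-- The logarithmic average over `n ≤ N` of the supremum over `g, x ∈ G` and `α ∈ B` of
`|∑_{h ≤ H} μ(n + h) f(g^h x Γ) e(α₁ h + α₂ h² + … + α_t h^t)|`. -/
noncomputable def Avg {G : Type} [Group G] (Γ : Subgroup G) (f : G ⧸ Γ → ℂ) {t : ℕ}
    (B : Set (Fin t → ℝ)) (N H : ℕ) : ℝ :=
  ∑ n ∈ Finset.Icc 1 N, (1 / (n : ℝ)) * ⨆ i : {i : (G × G) × (Fin t → ℝ) // i.2 ∈ B},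
    ‖∑ h ∈ Finset.Icc 1 H, ((ArithmeticFunction.moebius (n + h) : ℤ) : ℂ) *
      (f (QuotientGroup.mk (i.1.1.1 ^ h * i.1.1.2)) * Complex.exp (2 * Real.pi * Complex.I *
        ((∑ j : Fin t, i.1.2 j * (h : ℝ) ^ (j.val + 1) : ℝ) : ℂ)))‖

/-- The closure of `B + ℤ^t`. -/
def Hull {t : ℕ} (B : Set (Fin t → ℝ)) : Set (Fin t → ℝ) :=
  closure {β | ∃ α ∈ B, ∃ z : Fin t → ℤ, ∀ i, β i = α i + (z i : ℝ)}

/-- The section of `B` over the rational numbers `r_{s + 1}, …, r_t`: the set of `y ∈ ℝ^s` with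
`(y₁, …, y_s, r_{s + 1}, …, r_t) ∈ B`. -/
def Sec {t : ℕ} (s : ℕ) (B : Set (Fin t → ℝ)) (r : Fin t → ℚ) : Set (Fin s → ℝ) :=
  {y | (fun i : Fin t => if h : i.val < s then y ⟨i.val, h⟩ else ((r i : ℚ) : ℝ)) ∈ B}

/-- The set of points at distance at most `ρ` from `B` for the maximum norm. -/
def Nbhd {t : ℕ} (B : Set (Fin t → ℝ)) (ρ : ℝ) : Set (Fin t → ℝ) :=
  {α | ∃ β ∈ B, ∀ i, |α i - β i| ≤ ρ}

/-- All of `ℝ^s` if `s ≤ b`; the `y ∈ ℝ^s` whose last coordinate `y_s` has `|q y_s - a| ≥ δ` for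
all integers `a` and `1 ≤ q ≤ Q` if `s > b`. -/
def Level (b s Q : ℕ) (δ : ℝ) : Set (Fin s → ℝ) :=
  {y | b < s → ∀ i : Fin s, i.val + 1 = s → ∀ q : ℕ, 1 ≤ q → q ≤ Q → ∀ a : ℤ,
    δ ≤ |(q : ℝ) * y i - a|}

/-- **Nilsequences times the polynomial phases of a set: the classification.** -/
theorem result {G : Type} [Group G] [TopologicalSpace G] [IsTopologicalGroup G]
    (k t : ℕ) (hkt : k < t) (A : ℕ → Subgroup G) (hanti : Antitone A)
    (hcomm : ∀ i j, ⁅A i, A j⁆ ≤ A (i + j)) (hA1 : A 1 = ⊤) (hAk : A (k + 1) = ⊥)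
    (Γ : Subgroup G) (hΓ : IsClosed (Γ : Set G))
    (hcpt : ∀ i, ∃ C : Set G, IsCompact C ∧ (∀ c ∈ C, c ∈ A i) ∧
      ∀ x ∈ A i, ∃ c ∈ C, ∃ γ ∈ Γ, x = c * γ)
    (f : G ⧸ Γ → ℂ) (hf : Continuous f) (B : Set (Fin t → ℝ))
    (hinv : ∀ α ∈ B, ∀ β : Fin t → ℝ, (∀ i : Fin t, k ≤ i.val → β i = α i) → β ∈ B) :
    List.TFAE [
      ∀ ε : ℝ, 0 < ε → ∃ H₀ : ℕ, ∀ H N : ℕ, H₀ ≤ H → H ≤ N →
        Avg Γ f B N H ≤ ε * H * Real.log N,
      ∀ ε : ℝ, 0 < ε → ∃ ρ : ℝ, 0 < ρ ∧ ∃ H₀ : ℕ, ∀ H N : ℕ, H₀ ≤ H → H ≤ N →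
        Avg Γ f (Nbhd B ρ) N H ≤ ε * H * Real.log N,
      ∀ s : ℕ, max k 1 ≤ s → s ≤ t →
        (∃ r : Fin t → ℚ, MeasureTheory.volume (Sec s (Hull B) r) ≠ 0) →
        ∀ ε : ℝ, 0 < ε → ∃ Q : ℕ, ∀ δ : ℝ, 0 < δ → ∃ H₀ : ℕ, ∀ H N : ℕ, H₀ ≤ H → H ≤ N →
          Avg Γ f (Level (max k 1) s Q δ) N H ≤ ε * H * Real.log N] :=
  Pool.Agent.TUK.classification2
    (Pool.Agent.TUK.rowEK2 (Pool.Agent.TUK.rowEK
      (Pool.Agent.TUK.rowE8 (Pool.Agent.TUK.rowAK Pool.Agent.TUK.rowAK2))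
      (Pool.Agent.TUK.rowE9
        (Pool.Agent.TUK.rowE6 Pool.Agent.TUK.rowE1 (Pool.Agent.TU.rowD Pool.Agent.TU.rowA)
          Pool.Agent.TU.rowE Pool.Agent.TUK.rowE2 Pool.Agent.TUK.rowE4 Pool.Agent.TUK.rowE5
          Pool.Agent.TUK.rowE11
          (Pool.Agent.TUK.rowE6b Pool.Agent.TUK.rowE1 Pool.Agent.TU.rowE Pool.Agent.TUK.rowE2))
        Pool.Agent.TUK.rowE7
        (Pool.Agent.TUK.rowB2K (Pool.Agent.TUK.rowAK Pool.Agent.TUK.rowAK2)
          Pool.Agent.TU.rowB1))))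
    Pool.Agent.TUK.rowE10 k t hkt A hanti hcomm hA1 hAk Γ hΓ hcpt f hf B hinv

end Pool.Agent.Results.MP_663568_nt.ClosedSets
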