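import Mathlib
import Pool.Agent.Lib.EXS.TopB

/-!
# The exceptional sets of single polynomial phases on short blocks (MP_663568_nt)

The average of Q1 for polynomial phases of degree at most `t`, with the supremum over the phases of
an arbitrary set `B` inside, is small if and only if, for the degrees `s` of the non-null rational
sections of `B`, on blocks of one bounded length the level sets of one phase of degree `s` are
small.
-/

set_option autoImplicit false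

namespace Pool.Agent.Results.MP_663568_nt.ExceptionalSets

open Finset

/-- `|∑_{h ≤ H} μ(n + h) e(b₁ h + ⋯ + b_t h^t)|`, where `e(x) = exp(2πix)`. -/
noncomputable def block {t : ℕ} (b : Fin t → ℝ) (H n : ℕ) : ℝ :=
  ‖∑ h ∈ Icc 1 H, ((ArithmeticFunction.moebius (n + h) : ℤ) : ℂ) *
    Complex.exp (2 * Real.pi * Complex.I * ((∑ i : Fin t, b i * (h : ℝ) ^ (i.val + 1) : ℝ) : ℂ))‖

/-- `S_B(N, H)`: the logarithmic average of the supremum over the phases of the set `B`. -/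
noncomputable def average {t : ℕ} (B : Set (Fin t → ℝ)) (N H : ℕ) : ℝ :=
  ∑ n ∈ Icc 1 N, (1 / (n : ℝ)) * ⨆ b : {b : Fin t → ℝ // b ∈ B}, block b.1 H n

open Classical in
/-- `E_b(c, H, N)`: the sum of `1 / n` over the `n ≤ N` with `block b H n ≥ c H`. -/
noncomputable def exceptional {t : ℕ} (b : Fin t → ℝ) (c : ℝ) (H N : ℕ) : ℝ :=
  ∑ n ∈ (Icc 1 N).filter (fun n => c * H ≤ block b H n), (1 / (n : ℝ))

/-- The closure of `B + ℤ^t`. -/
def Hull {t : ℕ} (B : Set (Fin t → ℝ)) : Set (Fin t → ℝ) :=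
  closure {β | ∃ α ∈ B, ∃ z : Fin t → ℤ, ∀ i, β i = α i + (z i : ℝ)}

/-- The section of `B` over the rational numbers `r_{s + 1}, …, r_t`: the set of `y ∈ ℝ^s` with
`(y₁, …, y_s, r_{s + 1}, …, r_t) ∈ B`. -/
def Sec {t : ℕ} (s : ℕ) (B : Set (Fin t → ℝ)) (r : Fin t → ℚ) : Set (Fin s → ℝ) :=
  {y | (fun i : Fin t => if h : i.val < s then y ⟨i.val, h⟩ else ((r i : ℚ) : ℝ)) ∈ B}

/-- **The supremum over the phases of a set and the level sets of one phase.** -/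
theorem result :
    (∀ t : ℕ, 1 ≤ t → ∀ B : Set (Fin t → ℝ),
      ((∀ ε : ℝ, 0 < ε → ∃ H₀ : ℕ, ∀ H N : ℕ, H₀ ≤ H → H ≤ N →
          average B N H ≤ ε * H * Real.log N) ↔
        ∀ s : ℕ, 1 ≤ s → s ≤ t →
          (∃ r : Fin t → ℚ, MeasureTheory.volume (Sec s (Hull B) r) ≠ 0) →
          ∀ c : ℝ, 0 < c → ∃ H N₀ : ℕ, 1 ≤ H ∧ ∀ N : ℕ, N₀ ≤ N →
          ∃ b : Fin s → ℝ,
            (H : ℝ) ^ (s * (s + 1) / 2) * exceptional b c H N < c * Real.log N)) ∧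
    (∀ t : ℕ, 1 ≤ t → ∀ c : ℝ, 0 < c → ∃ C : ℝ, ∀ H N : ℕ, 1 ≤ H →
      ∃ b : Fin t → ℝ,
        (H : ℝ) ^ (t * (t + 1) / 2) * exceptional b c H N ≤
          C * (average (Set.univ : Set (Fin t → ℝ)) N H / H)) ∧
    ∀ ε : ℝ, 0 < ε → ∀ H : ℕ, 1 ≤ H → ∃ H₀ : ℕ, ∀ N K : ℕ, H₀ ≤ K → K ≤ N →
      ∀ (b : Fin 1 → ℝ) (c : ℝ), 0 ≤ c →
        average (Set.univ : Set (Fin 1 → ℝ)) N K ≤
          (c + √(Real.pi * H * (exceptional b c H N / Real.log N)) + ε) * K * Real.log N :=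
  ⟨Pool.Agent.EXS.critB Pool.Agent.EXS.x1_top, Pool.Agent.EXS.conv_minB,
    Pool.Agent.EXS.ineq_oneB⟩

end Pool.Agent.Results.MP_663568_nt.ExceptionalSets
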