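import Mathlib
import Pool.Agent.Lib.NG.JMainN
import Pool.Agent.Lib.NG.JFB

/-!
# Q1 in natural density: slowly varying first terms and free higher terms (MP_663568_nt)

`G` is a closed group of upper unitriangular real matrices in which every element lies on a one
parameter subgroup, `Γ` a cocompact subgroup of integral matrices, `f` a continuous function on
`G ⧸ Γ`.  The Möbius function in the short intervals `(n, n + H]` is compared with `f(P(k) Γ)`, with
the supremum inside the sum over ALL maps `P : ℤ → G` whose matrix entries are polynomials of degree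
at most `D` such that `P(n) = k g_n(n) c` and `P(n + 1) = k' g_n(n + 1) c z_n` for some `c` in the
centre of `G`, some `k` within `A` of `1` and some `k'` within `A / H` of `k`: all the terms of
order at least two are free, so is a central constant, and the base point and the first term are
free in a neighbourhood of those of `g_n`.  For `g_n(k) = a_n ^ k x₀`, `z_n = 1` and `P = g_n` this is the
average of Q1.  Here the sum is over the dyadic block `N ≤ n < 2 N`, without weights.  It is small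
for all `N` and `H` if `z_n = 1` for all `n` and the variation of the family on the block is at most
`A` (in particular for one `g`), and for `N ≥ H ^ B` if the variation is at most `H ^ A`; the
variation of the central elements `z_n` is counted without the factor `n`.
-/

set_option autoImplicit false

namespace Pool.Agent.Results.MP_663568_nt.FreeHigherTerms

/-- `G` is a closed group of upper unitriangular real matrices and each element of `G` lies on a
one parameter subgroup of `G`. -/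
structure Unip {m : ℕ} (G : Subgroup (Matrix.GeneralLinearGroup (Fin m) ℝ)) : Prop where
  upper : ∀ g ∈ G, ∀ i j : Fin m, j ≤ i →
    (g : Matrix (Fin m) (Fin m) ℝ) i j = if i = j then 1 else 0
  closed : IsClosed (G : Set (Matrix.GeneralLinearGroup (Fin m) ℝ))
  line : ∀ g ∈ G, ∃ φ : ℝ → Matrix.GeneralLinearGroup (Fin m) ℝ, Continuous φ ∧
    (∀ s t, φ (s + t) = φ s * φ t) ∧ φ 1 = g ∧ ∀ t, φ t ∈ G

section

variable {m : ℕ} {G : Subgroup (Matrix.GeneralLinearGroup (Fin m) ℝ)}

/-- The entries of `g k` are real polynomials in `k` of degree at most `D`. -/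
def Poly (D : ℕ) (g : ℤ → G) : Prop := ∀ i j : Fin m, ∃ p : Polynomial ℝ, p.natDegree ≤ D ∧
  ∀ k : ℤ, ((g k : Matrix.GeneralLinearGroup (Fin m) ℝ) : Matrix (Fin m) (Fin m) ℝ) i j =
    p.eval (k : ℝ)

/-- The sum of the absolute values of the entries of `y x⁻¹ - 1`. -/
noncomputable def ds (x y : G) : ℝ := ∑ i, ∑ j,
  |((y * x⁻¹ : Matrix.GeneralLinearGroup (Fin m) ℝ) :
    Matrix (Fin m) (Fin m) ℝ) i j - (1 : Matrix (Fin m) (Fin m) ℝ) i j|

/-- The variation of the family on the block `[N, 2 N)`. -/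
noncomputable def var (g : ℕ → ℤ → G) (z : ℕ → G) (N : ℕ) : ℝ :=
  ∑ n ∈ Finset.Ico N (2 * N), min 1
    ((⨆ k : Fin (4 * n + 1), ds (g n (k : ℕ)) (g (n + 1) (k : ℕ))) + ds (z n) (z (n + 1)))

/-- The supremum of `|∑_{h ≤ H} f(P(n + h) Γ) μ(n + h)|` over all polynomial maps `P` of degree at
most `D` for which some `c` in the centre of `G` and some `k`, `k'` in `G` with `ds 1 k ≤ A` and
`ds k k' ≤ A / H` have `P(n) = k g(n) c` and `P(n + 1) = k' g(n + 1) c z`. -/
noncomputable def Sup {Γ : Subgroup G} (A : ℝ) (f : G ⧸ Γ → ℂ) (D : ℕ) (g : ℤ → G) (z : G)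
    (H n : ℕ) : ℝ :=
  ⨆ P : {P : ℤ → G // Poly D P ∧ ∃ c ∈ Subgroup.center G, ∃ k k' : G, ds 1 k ≤ A ∧
      ds k k' ≤ A / H ∧ P n = k * (g n * c) ∧ P (n + 1) = k' * (g (n + 1) * c * z)},
    ‖∑ h ∈ Finset.Icc 1 H, f (QuotientGroup.mk (P.1 (n + h))) *
      ((ArithmeticFunction.moebius (n + h) : ℤ) : ℂ)‖

end

/-- **Q1 in natural density, with slowly varying first terms and free higher terms.** -/
theorem result {m : ℕ} {G : Subgroup (Matrix.GeneralLinearGroup (Fin m) ℝ)} (hG : Unip G)
    {Γ : Subgroup G}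
    (hΓ : ∀ γ ∈ Γ, ∀ i j, ∃ k : ℤ, ((γ : Matrix.GeneralLinearGroup (Fin m) ℝ) :
      Matrix (Fin m) (Fin m) ℝ) i j = k) [CompactSpace (G ⧸ Γ)] (f : G ⧸ Γ → ℂ)
    (hf : Continuous f) (D : ℕ) (A ε : ℝ) (hε : 0 < ε) :
    ∃ (B : ℝ) (H₀ : ℕ), ∀ H : ℕ, H₀ ≤ H → ∀ N : ℕ, 1 ≤ N →
    ∀ (g : ℕ → ℤ → G) (z : ℕ → G), (∀ n, Poly D (g n)) → (∀ n, z n ∈ Subgroup.center G) →
    (((∀ n, z n = 1) ∧ var g z N ≤ A) ∨ ((H : ℝ) ^ B ≤ N ∧ var g z N ≤ (H : ℝ) ^ A)) →
    ∑ n ∈ Finset.Ico N (2 * N), Sup A f D (g n) (z n) H n ≤ ε * H * N :=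
  Pool.Agent.NG.jfinalB Pool.Agent.NG.jetn_all (Pool.Agent.NG.jetck Pool.Agent.NG.jetcu_all)
    ⟨hG.upper, hG.closed, hG.line⟩ hΓ f hf D A ε hε

end Pool.Agent.Results.MP_663568_nt.FreeHigherTerms
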