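import Mathlib
import Pool.Agent.Lib.NC62.N10

/-!
# Closed sets of nilsequences and major arcs which shrink with `H`, with twists (MP_663568_nt)

`G` is a nilpotent topological group with lower central series `G = G_1, G_2, …` and a subgroup
`Γ`, such that every `G_j` has coordinates (structure `Coord`; by Malcev all `G`, `Γ` of Q1 are of
this form).  `K`, `Λ` is another pair of the same kind, of step at most `s`, `ψ` is any continuous
function on `K ⧸ Λ`, and `f` is a continuous function on `G ⧸ Γ` which is orthogonal to all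
continuous functions which are invariant under `G_(s+1)`; for `s = 0` and the Möbius function `f`
is arbitrary.  The average of Q1 for `f (g ^ h x Γ) ψ (k ^ h y Λ) e(Q(h))`, with the supremum over
ALL `x ∈ G`, ALL `k, y ∈ K`, all real polynomials `Q` of degree at most `s` and all `g` in a set
`E`, is small in two cases.

(1) Closed sets: `E` consists of all the `g` whose image in `G ⧸ G_2 = ℝ ^ D` is near `B + ℤ ^ D`,
where `B` is a compact set such that for all small `k ≠ 0` the numbers `k ⬝ b`, `b ∈ B`, are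
irrational and form a set of small measure modulo one.  The set `E` is not bounded modulo `G_2`.

(2) `s ≥ 1` and `E` is the complement of the major arcs, which may shrink like a power of `H`.
-/

set_option autoImplicit false

namespace Pool.Agent.Results.MP_663568_nt.NilSets

/-- `G` is nilpotent of step at most `t`, and every term `G_(s+1)` (in Lean
`(⊤ : Subgroup G).lowerCentralSeries s`) of the lower central series has coordinates: `π s` is a
continuous homomorphism from it to `ℝ ^ (d s)` with kernel the next term, integral on `Γ`, and the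
`e s j` are one-parameter subgroups of it with `e s j 1 ∈ Γ` which `π s` maps to the coordinate
axes. -/
structure Coord (G : Type) [Group G] [TopologicalSpace G] (Γ : Subgroup G) (t : ℕ) where
  d : ℕ → ℕ
  π : (s : ℕ) → G → Fin (d s) → ℝ
  e : (s : ℕ) → Fin (d s) → ℝ → G
  nil : (⊤ : Subgroup G).lowerCentralSeries t = ⊥
  π_mul : ∀ s, ∀ x ∈ (⊤ : Subgroup G).lowerCentralSeries s,
    ∀ y ∈ (⊤ : Subgroup G).lowerCentralSeries s, π s (x * y) = π s x + π s y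
  π_cont : ∀ s, ContinuousOn (π s) ((⊤ : Subgroup G).lowerCentralSeries s)
  π_int : ∀ s, ∀ γ ∈ Γ, γ ∈ (⊤ : Subgroup G).lowerCentralSeries s → ∀ j, ∃ z : ℤ, π s γ j = z
  π_ker : ∀ s, ∀ x ∈ (⊤ : Subgroup G).lowerCentralSeries s,
    π s x = 0 ↔ x ∈ (⊤ : Subgroup G).lowerCentralSeries (s + 1)
  e_cont : ∀ s j, Continuous (e s j)
  e_add : ∀ s j a b, e s j (a + b) = e s j a * e s j b
  e_one : ∀ s j, e s j 1 ∈ Γ
  e_mem : ∀ s j r, e s j r ∈ (⊤ : Subgroup G).lowerCentralSeries s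
  e_π : ∀ s j r, π s (e s j r) = Pi.single j r

/-- The logarithmic average over `n ≤ N` of the supremum over `g ∈ E`, `x ∈ G`, `k, y ∈ K` and the
real polynomials `Q` of degree at most `s` of
`|∑_{h ≤ H} a(n + h) f(g ^ h x Γ) ψ(k ^ h y Λ) e(Q(h))|`. -/
noncomputable def Avg {G K : Type} [Group G] [Group K] {Γ : Subgroup G} {Λ : Subgroup K}
    (f : G ⧸ Γ → ℂ) (ψ : K ⧸ Λ → ℂ) (a : ℕ → ℂ) (s : ℕ) (E : Set G) (N H : ℕ) : ℝ :=
  ∑ n ∈ Finset.Icc 1 N, (1 / (n : ℝ)) *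
    ⨆ v : (↥E × G) × (K × K) × {Q : Polynomial ℝ // Q.natDegree ≤ s},
      ‖∑ h ∈ Finset.Icc 1 H, a (n + h) * (f (QuotientGroup.mk ((v.1.1 : G) ^ h * v.1.2)) *
        ψ (QuotientGroup.mk (v.2.1.1 ^ h * v.2.1.2)) *
        Complex.exp (2 * Real.pi * Complex.I * ((v.2.2.1.eval (h : ℝ) : ℝ) : ℂ)))‖

/-- All `k ⬝ b`, `b ∈ B`, `0 < |k| ≤ L`, are irrational, and for every such `k` they form a set of
measure less than `v` in `ℝ / ℤ`. -/
def SmallB {d : ℕ} (B : Set (Fin d → ℝ)) (L : ℕ) (v : ℝ) : Prop :=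
  ∀ k : Fin d → ℤ, k ≠ 0 → (∀ j, |k j| ≤ (L : ℤ)) →
    (∀ b ∈ B, Irrational (∑ j, (k j : ℝ) * b j)) ∧
      MeasureTheory.volume ((fun b : Fin d → ℝ => ((∑ j, (k j : ℝ) * b j : ℝ) : UnitAddCircle)) '' B)
        < ENNReal.ofReal v

/-- The elements `g` whose image `π g ∈ ℝ ^ d` is at distance less than `ρ` from `B + ℤ ^ d`. -/
def NearB {G : Type} {d : ℕ} (π : G → Fin d → ℝ) (B : Set (Fin d → ℝ)) (ρ : ℝ) : Set G :=
  {g | ∃ b ∈ B, ∀ j, ∃ z : ℤ, |π g j - b j - z| < ρ}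

/-- `|k ⬝ u - z| ≥ δ` for all integers `z` and all integer vectors `k` with `0 < |k| ≤ h` -/
def Far {m : ℕ} (h δ : ℝ) (u : Fin m → ℝ) : Prop :=
  ∀ k : Fin m → ℤ, k ≠ 0 → (∀ j, |(k j : ℝ)| ≤ h) → ∀ z : ℤ, δ ≤ |∑ j, (k j : ℝ) * u j - z|

/-- The elements `g` outside the major arcs: `π g ∈ ℝ ^ m` has size at most `R`, is `d`-far from
the relations of height `C` and `δ`-far from those of height `C (R / d) ^ C`. -/
def NotMajor {G : Type} {m : ℕ} (π : G → Fin m → ℝ) (C : ℕ) (R d δ : ℝ) : Set G :=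
  {g | (∀ j, |π g j| ≤ R) ∧ Far (C : ℝ) d (π g) ∧ Far (C * (R / d) ^ C) δ (π g)}

theorem result (G K : Type) [Group G] [TopologicalSpace G] [IsTopologicalGroup G]
    [Group K] [TopologicalSpace K] [IsTopologicalGroup K] (Γ : Subgroup G) (Λ : Subgroup K)
    (t s : ℕ) (DG : Coord G Γ t) (DK : Coord K Λ s)
    [MeasurableSpace (G ⧸ Γ)] [BorelSpace (G ⧸ Γ)] (m : MeasureTheory.Measure (G ⧸ Γ))
    [MeasureTheory.IsProbabilityMeasure m] (hm : ∀ g : G, m.map (fun x => g • x) = m)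
    (f : G ⧸ Γ → ℂ) (hf : Continuous f)
    (hf0 : 1 ≤ s → ∀ φ : G ⧸ Γ → ℂ, Continuous φ →
      (∀ z ∈ (⊤ : Subgroup G).lowerCentralSeries s, ∀ x : G ⧸ Γ, φ (z • x) = φ x) →
      ∫ x, f x * (starRingEnd ℂ) (φ x) ∂m = 0)
    (ψ : K ⧸ Λ → ℂ) (hψ : Continuous ψ) (ε : ℝ) (hε : 0 < ε) :
    (∀ a : ℕ → ℂ, (∀ n, ‖a n‖ ≤ 1) →
      (∀ p : ℕ, p.Prime → ∀ k, ¬ p ∣ k → a (p * k) = a p * a k) →
      (s = 0 → a = fun n => ((ArithmeticFunction.moebius n : ℤ) : ℂ)) →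
      ∃ (L : ℕ) (v : ℝ), 0 < v ∧ ∀ B : Set (Fin (DG.d 0) → ℝ), IsCompact B → SmallB B L v →
        ∃ ρ : ℝ, 0 < ρ ∧ ∃ H₀ : ℕ, ∀ H N : ℕ, H₀ ≤ H → H ≤ N →
          Avg f ψ a s (NearB (DG.π 0) B ρ) N H ≤ ε * H * Real.log N) ∧
    (1 ≤ s → ∃ C : ℕ, 1 ≤ C ∧ ∀ a : ℕ → ℂ, (∀ n, ‖a n‖ ≤ 1) →
      (∀ p : ℕ, p.Prime → ∀ k, ¬ p ∣ k → a (p * k) = a p * a k) →
      ∀ R d δ : ℝ, 1 ≤ R → 0 < δ → δ ≤ d → d ≤ 1 →
      ∀ H N : ℕ, C * (R / δ) ^ C ≤ H → H ≤ N →
        Avg f ψ a s (NotMajor (DG.π 0) C R d δ) N H ≤ ε * H * Real.log N) := by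
  have hN := Pool.Agent.Lib.MP_663568_nt.Q.nsRaw Γ t DG.nil DG.d DG.π DG.e DG.π_mul DG.π_cont
    DG.π_int DG.π_ker DG.e_cont DG.e_add DG.e_one DG.e_mem DG.e_π
  have hN' := Pool.Agent.Lib.MP_663568_nt.Q.nsRaw Λ s DK.nil DK.d DK.π DK.e DK.π_mul DK.π_cont
    DK.π_int DK.π_ker DK.e_cont DK.e_add DK.e_one DK.e_mem DK.e_π
  refine ⟨fun a ha hmul h0 => ?_, fun hs => ?_⟩
  · refine Pool.Agent.Lib.MP_663568_nt.NC.final_closed hN hN' t s DG.nil DK.nil m hm a ha hmul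
      f hf ?_ ψ hψ ε hε
    rcases Nat.eq_zero_or_pos s with h | h
    · exact Or.inl ⟨h, h0 h⟩
    · exact Or.inr (hf0 h)
  obtain ⟨C, hC, h⟩ := Pool.Agent.Lib.MP_663568_nt.NC.final_major hN hN' t s hs DG.nil DK.nil m
    hm f hf (hf0 hs) ψ hψ ε hε
  refine ⟨C, hC, fun a ha hmul R d δ hR hδ hδd hd H N hH hHN => ?_⟩
  refine le_trans (le_of_eq ?_) (h a ha hmul R d δ hR hδ hδd hd H N hH hHN)
  have hE : NotMajor (DG.π 0) C R d δ =
      {g | Pool.Agent.Lib.MP_663568_nt.Q.GoodEl (DG.π 0) C R d δ g} := by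
    ext g
    constructor
    · rintro ⟨hg1, hg2, hg3⟩
      exact ⟨hg1, fun k hk hkh => hg2 k hk hkh _, fun k hk hkh => hg3 k hk hkh _⟩
    · rintro ⟨hg1, hg2, hg3⟩
      refine ⟨hg1, fun k hk hkh z => (hg2 k hk hkh).trans (Pool.Agent.Lib.MP_663568_nt.Nul.nd_le _ _),
        fun k hk hkh z => (hg3 k hk hkh).trans (Pool.Agent.Lib.MP_663568_nt.Nul.nd_le _ _)⟩
  rw [hE]
  rfl

end Pool.Agent.Results.MP_663568_nt.NilSets
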